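import Pool.Agent.Y981.Sup
import Pool.Agent.TH303.HX2

set_option autoImplicit false

/-! Bounded domains of arbitrary shape. -/

namespace Pool.Agent.Y981.Sup

open Pool.Agent.W832.HR Pool.Agent.W818.TD H978R2.Hex
open scoped ENNReal

theorem box_of {δ M : ℝ} (hδ : 0 < δ) (hδ2 : δ ≤ 1 / 2) (hM : 0 ≤ M) {v : V}
    (h : ‖(δ : ℂ) * emb v‖ ≤ M) :
    |(v.1 : ℝ)| ≤ (2 * M + 1) * (⌈1 / δ⌉₊ : ℝ) ∧ |(v.2 : ℝ)| ≤ (2 * M + 1) * (⌈1 / δ⌉₊ : ℝ) := by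
  have h1 : ‖emb v‖ ≤ M * (1 / δ) := by
    rw [norm_mul, Complex.norm_real, Real.norm_of_nonneg hδ.le] at h
    rw [mul_one_div, le_div_iff₀ hδ]
    linarith
  have h2 : 1 / δ ≤ (⌈1 / δ⌉₊ : ℝ) := Nat.le_ceil _
  have h3 : 2 ≤ 1 / δ := by
    rw [le_div_iff₀ hδ]
    linarith
  have h4 : ‖emb v‖ ≤ M * (⌈1 / δ⌉₊ : ℝ) := h1.trans (mul_le_mul_of_nonneg_left h2 hM)
  have h5 := (Complex.abs_re_le_norm (emb v)).trans h4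
  have h6 := (Complex.abs_im_le_norm (emb v)).trans h4
  have hL : 2 ≤ (⌈1 / δ⌉₊ : ℝ) := h3.trans h2
  set L : ℝ := (⌈1 / δ⌉₊ : ℝ) with hLd
  clear_value L
  unfold emb at h5 h6
  simp only at h5 h6
  have hs := s3_ge
  constructor
  · rw [abs_mul, abs_of_nonneg (by positivity)] at h5
    have h7 := abs_nonneg (v.1 : ℝ)
    nlinarith
  · rw [abs_le] at h6 ⊢
    have hML : 0 ≤ M * L := by positivity
    split_ifs at h6 <;> constructor <;> nlinarith [h6.1, h6.2]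

theorem quasi (M : ℝ) (hM : 0 ≤ M) : ∃ K : ℝ, 0 ≤ K ∧ ∀ δ : ℝ, 0 < δ → δ ≤ 1 / 2 →
    ∀ D : Set V, (∀ v ∈ D, ‖(δ : ℂ) * emb v‖ ≤ M) → ∀ p q : V,
      Z D p q ≤ ENNReal.ofReal (Real.exp (K * Real.log (1 / δ) ^ 2)) := by
  obtain ⟨K, hK, h⟩ := Pool.Agent.TH303.HX2.upper (2 * M + 1)
  refine ⟨4 * K, by positivity, ?_⟩
  intro δ hδ hδ2 D hD p q
  have h3 : 2 ≤ 1 / δ := by
    rw [le_div_iff₀ hδ]
    linarith
  have h4 : 1 / δ ≤ (⌈1 / δ⌉₊ : ℝ) := Nat.le_ceil _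
  have h5 : (⌈1 / δ⌉₊ : ℝ) < 1 / δ + 1 := Nat.ceil_lt_add_one (by positivity)
  have hL : 2 ≤ ⌈1 / δ⌉₊ := by
    have : (2 : ℝ) ≤ (⌈1 / δ⌉₊ : ℝ) := h3.trans h4
    exact_mod_cast this
  have h6 : Z D p q ≤ ENNReal.ofReal (Real.exp (K * Real.log (⌈1 / δ⌉₊ : ℝ) ^ 2)) :=
    h ⌈1 / δ⌉₊ hL D (fun v hv => box_of hδ hδ2 hM (hD v hv)) p q
  refine h6.trans (ENNReal.ofReal_le_ofReal (Real.exp_le_exp.2 ?_))
  have h7 : Real.log (⌈1 / δ⌉₊ : ℝ) ≤ 2 * Real.log (1 / δ) := by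
    have h8 : (⌈1 / δ⌉₊ : ℝ) ≤ (1 / δ) ^ 2 := by nlinarith
    have h9 := Real.log_le_log (by linarith) h8
    rw [Real.log_pow] at h9
    exact_mod_cast h9
  have h10 : 0 ≤ Real.log (⌈1 / δ⌉₊ : ℝ) := Real.log_natCast_nonneg _
  have h11 : Real.log (⌈1 / δ⌉₊ : ℝ) ^ 2 ≤ (2 * Real.log (1 / δ)) ^ 2 :=
    pow_le_pow_left₀ h10 h7 2
  nlinarith

/-- lower bound in all sets between -/
theorem low (W : Set ℂ) (hW : IsOpen W) (hc : IsConnected W) (a b : ℂ) (hab : a ≠ b)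
    (ε ε' : ℝ) (hε : ε = 1 ∨ ε = -1) (hε' : ε' = 1 ∨ ε' = -1) (r : ℝ) (hr : 0 < r)
    (ha : HD a ε r ⊆ W) (hb : HD b ε' r ⊆ W) :
    ∃ K : Set ℂ, K ⊆ W ∧ IsCompact K ∧ ∃ C : ℕ, 9 ≤ C ∧ ∀ δ : ℝ, 0 < δ → C * δ ≤ 1 →
      ∀ (T : Set V) (p q : V), Bd ε p → Bd ε' q →
      C * ‖(δ : ℂ) * emb p - a‖ ≤ 1 → C * ‖(δ : ℂ) * emb q - b‖ ≤ 1 →
      (∀ v : V, (δ : ℂ) * emb v ∈ K → v ∈ T) → Hd δ ε r p ⊆ T → Hd δ ε' r q ⊆ T →
      p ≠ q ∧ ∀ D : Set V, T ⊆ D → ENNReal.ofReal (δ ^ C) ≤ Z D p q := by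
  obtain ⟨K, hK, hKc, C₀, hC₀, h⟩ := domain_two_point W hW hc a b hab ε ε' hε hε' r hr ha hb
  obtain ⟨m, hm⟩ := exists_nat_gt (4 / ‖a - b‖)
  have hab' : 0 < ‖a - b‖ := norm_pos_iff.2 (sub_ne_zero.2 hab)
  refine ⟨K, hK, hKc, C₀ + 9 + m, by omega, ?_⟩
  intro δ hδ hCδ T p q hp hq hpa hqb hKT hpT hqT
  have hCr : ((C₀ + 9 + m : ℕ) : ℝ) = C₀ + 9 + m := by push_cast; ring
  rw [hCr] at hCδ hpa hqb
  have hC0 : (0 : ℝ) ≤ C₀ := Nat.cast_nonneg _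
  have hm0 : (0 : ℝ) ≤ m := Nat.cast_nonneg _
  have small : ∀ x : ℝ, 0 ≤ x → ((C₀ : ℝ) + 9 + m) * x ≤ 1 →
      (C₀ : ℝ) * x ≤ 1 ∧ 9 * x ≤ 1 ∧ (m : ℝ) * x ≤ 1 := by
    intro x hx hx1
    have a1 : 0 ≤ (C₀ : ℝ) * x := by positivity
    have a2 : 0 ≤ (m : ℝ) * x := by positivity
    refine ⟨?_, ?_, ?_⟩ <;> nlinarith
  obtain ⟨d1, d2, d3⟩ := small δ hδ.le hCδ
  obtain ⟨p1, p2, p3⟩ := small _ (norm_nonneg _) hpa
  obtain ⟨q1, q2, q3⟩ := small _ (norm_nonneg _) hqb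
  have hδ1 : δ ≤ 1 := by linarith
  refine ⟨?_, fun D hTD => ?_⟩
  · rintro rfl
    have e1 : ‖a - b‖ ≤ ‖(δ : ℂ) * emb p - a‖ + ‖(δ : ℂ) * emb p - b‖ := by
      have : a - b = ((δ : ℂ) * emb p - b) - ((δ : ℂ) * emb p - a) := by ring
      rw [this]
      refine (norm_sub_le _ _).trans ?_
      linarith
    rw [div_lt_iff₀ hab'] at hm
    nlinarith
  · refine le_trans (ENNReal.ofReal_le_ofReal ?_)
      (h δ hδ d1 D p q hp hq p1 q1 (fun v hv => hTD (hKT v hv)) (hpT.trans hTD) (hqT.trans hTD))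
    exact pow_le_pow_of_le_one hδ.le hδ1 (by omega)

/-- **Theorem** -/
theorem support_all (W : Set ℂ) (hW : IsOpen W) (hc : IsConnected W) (a b : ℂ) (hab : a ≠ b)
    (ε ε' : ℝ) (hε : ε = 1 ∨ ε = -1) (hε' : ε' = 1 ∨ ε' = -1) (r : ℝ) (hr : 0 < r)
    (ha : HD a ε r ⊆ W) (hb : HD b ε' r ⊆ W) (M : ℝ) :
    ∃ K : Set ℂ, K ⊆ W ∧ IsCompact K ∧ ∃ C : ℕ, 1 ≤ C ∧ ∀ δ : ℝ, 0 < δ → C * δ ≤ 1 →
      ∀ (D T : Set V) (p q : V), Bd ε p → Bd ε' q →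
      C * ‖(δ : ℂ) * emb p - a‖ ≤ 1 → C * ‖(δ : ℂ) * emb q - b‖ ≤ 1 →
      (∀ v : V, (δ : ℂ) * emb v ∈ K → v ∈ T) → Hd δ ε r p ⊆ T → Hd δ ε' r q ⊆ T → T ⊆ D →
      ((∀ v ∈ D, ‖(δ : ℂ) * emb v‖ ≤ M) →
        ENNReal.ofReal (δ ^ C) ≤ Z D p q ∧
        Z D p q ≤ ENNReal.ofReal (Real.exp (C * Real.log (1 / δ) ^ 2)) ∧
        ENNReal.ofReal (Real.exp (-(C * Real.log (1 / δ) ^ 2))) ≤ P D p q T) ∧
      ((∀ v ∈ D, 0 ≤ ε * (lv (emb v) - lv (emb p)) ∧ 0 ≤ ε' * (lv (emb v) - lv (emb q))) →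
        ENNReal.ofReal (δ ^ C) ≤ Z D p q ∧ Z D p q ≤ 500 ∧
        ENNReal.ofReal (δ ^ C) ≤ P D p q T) := by
  obtain ⟨K, hK, hKc, C₁, hC₁, h⟩ := low W hW hc a b hab ε ε' hε hε' r hr ha hb
  obtain ⟨K', hK', hq'⟩ := quasi (max M 0) (le_max_right _ _)
  obtain ⟨m, hm⟩ := exists_nat_gt K'
  refine ⟨K, hK, hKc, 2 * C₁ + m, by omega, ?_⟩
  intro δ hδ hCδ D T p q hp hq hpa hqb hKT hpT hqT hTD
  have hCr : ((2 * C₁ + m : ℕ) : ℝ) = 2 * C₁ + m := by push_cast; ring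
  have hC1 : (9 : ℝ) ≤ C₁ := by exact_mod_cast hC₁
  have hm0 : (0 : ℝ) ≤ m := Nat.cast_nonneg _
  have small : ∀ x : ℝ, 0 ≤ x → ((2 * C₁ + m : ℕ) : ℝ) * x ≤ 1 →
      (C₁ : ℝ) * x ≤ 1 ∧ 9 * x ≤ 1 := by
    intro x hx hx1
    rw [hCr] at hx1
    have a1 : 0 ≤ (C₁ : ℝ) * x := by positivity
    have a2 : 0 ≤ (m : ℝ) * x := by positivity
    constructor <;> nlinarith
  obtain ⟨d1, d2⟩ := small δ hδ.le hCδ
  have p1 := (small _ (norm_nonneg _) hpa).1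
  have q1 := (small _ (norm_nonneg _) hqb).1
  have hδ1 : δ ≤ 1 := by linarith
  obtain ⟨hpq, hlow⟩ := h δ hδ d1 T p q hp hq p1 q1 hKT hpT hqT
  have hle : ENNReal.ofReal (δ ^ (2 * C₁ + m)) ≤ ENNReal.ofReal (δ ^ C₁) :=
    ENNReal.ofReal_le_ofReal (pow_le_pow_of_le_one hδ.le hδ1 (by omega))
  have hDT := hlow (D ∩ T) (fun v hv => ⟨hTD hv, hv⟩)
  have hδC : δ ^ C₁ = Real.exp (-(C₁ * Real.log (1 / δ))) := by
    rw [one_div, Real.log_inv, mul_neg, neg_neg, Real.exp_nat_mul, Real.exp_log hδ]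
  have hl : 1 / 2 ≤ Real.log (1 / δ) := by
    have h2 : 2 ≤ 1 / δ := by
      rw [le_div_iff₀ hδ]
      linarith
    have h3 := Real.log_le_log (by norm_num) h2
    have h4 := Real.log_two_gt_d9
    linarith
  set l := Real.log (1 / δ) with hld
  constructor
  · intro hDM
    have hup : Z D p q ≤ ENNReal.ofReal (Real.exp (K' * l ^ 2)) :=
      hq' δ hδ (by linarith) D (fun v hv => (hDM v hv).trans (le_max_left _ _)) p q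
    refine ⟨hle.trans (hlow D hTD), hup.trans (ENNReal.ofReal_le_ofReal (Real.exp_le_exp.2 ?_)), ?_⟩
    · rw [hCr]
      have : 0 ≤ l ^ 2 := sq_nonneg l
      nlinarith
    · unfold P
      refine le_trans ?_ (ENNReal.div_le_div hDT hup)
      rw [← ENNReal.ofReal_div_of_pos (Real.exp_pos _)]
      apply ENNReal.ofReal_le_ofReal
      rw [hδC, ← Real.exp_sub]
      apply Real.exp_le_exp.2
      rw [hCr]
      have h4 : l ≤ 2 * l ^ 2 := by nlinarith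
      have h5 : (C₁ : ℝ) * l ≤ C₁ * (2 * l ^ 2) :=
        mul_le_mul_of_nonneg_left h4 (Nat.cast_nonneg _)
      have h6 : K' * l ^ 2 ≤ m * l ^ 2 := mul_le_mul_of_nonneg_right hm.le (sq_nonneg l)
      linarith
  · intro hD
    have hup := upper hp hq hpq (fun v hv => (hD v hv).1) (fun v hv => (hD v hv).2)
    refine ⟨hle.trans (hlow D hTD), hup, ?_⟩
    unfold P
    refine le_trans ?_ (ENNReal.div_le_div hDT hup)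
    have h500 : (500 : ℝ≥0∞) = ENNReal.ofReal 500 := by norm_num
    rw [h500, ← ENNReal.ofReal_div_of_pos (by norm_num)]
    apply ENNReal.ofReal_le_ofReal
    rw [le_div_iff₀ (by norm_num)]
    have h9 : δ ^ 9 * 500 ≤ 1 := by
      have : δ ≤ 1 / 9 := by linarith
      calc δ ^ 9 * 500 ≤ (1 / 9) ^ 9 * 500 := by gcongr
        _ ≤ 1 := by norm_num
    calc δ ^ (2 * C₁ + m) * 500 ≤ δ ^ (C₁ + 9) * 500 := by
          apply mul_le_mul_of_nonneg_right _ (by norm_num)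
          exact pow_le_pow_of_le_one hδ.le hδ1 (by omega)
      _ = δ ^ C₁ * (δ ^ 9 * 500) := by ring
      _ ≤ δ ^ C₁ * 1 := mul_le_mul_of_nonneg_left h9 (by positivity)
      _ = δ ^ C₁ := mul_one _

end Pool.Agent.Y981.Sup
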