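import Pool.Agent.W832.HR.Cont2
import Pool.Agent.W832.HR.TriB

set_option autoImplicit false

/-! Polynomial lower bound for the probability that the critical walk stays in a given open set. -/

namespace Pool.Agent.Y981.Sup

open Pool.Agent.W832.HR Pool.Agent.W818.TD H978R2.Hex
open scoped ENNReal

theorem xc_two : ∀ z : ℝ≥0∞, xc * z ≤ 1 → z ≤ 2 := by
  intro z h5
  have hx : ENNReal.ofReal (1 / 2) ≤ xc := by
    rw [xc_eq]
    exact ENNReal.ofReal_le_ofReal xc_half
  have h6 : ENNReal.ofReal (1 / 2) * z ≤ 1 := (mul_le_mul_left hx _).trans h5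
  have h7 : ENNReal.ofReal (1 / 2) = 2⁻¹ := by
    rw [one_div, ENNReal.ofReal_inv_of_pos (by norm_num), ENNReal.ofReal_ofNat]
  rw [h7] at h6
  calc z = 2 * (2⁻¹ * z) := by
        rw [← mul_assoc, ENNReal.mul_inv_cancel (by norm_num) (by norm_num), one_mul]
    _ ≤ 2 * 1 := mul_le_mul_right h6 _
    _ = 2 := mul_one _

theorem B_le {T : ℕ} (hT : 1 ≤ T) : B T ≤ 2 := by
  apply xc_two
  rw [← B_eq hT, ENNReal.ofReal_le_one]
  exact Br_le_one hT

theorem a_le {j : ℤ} (hj : j ≠ 0) : Pool.Agent.W832.HR.a j ≤ 500 := by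
  obtain ⟨-, h2, h3, -⟩ := final 1 le_rfl
  have h4 : Pool.Agent.W832.HR.a j ≤ S 1 := by
    unfold S
    have h5 : Pool.Agent.W832.HR.a j ≤ (min j.natAbs 1 : ℕ) * Pool.Agent.W832.HR.a j := by
      have : min j.natAbs 1 = 1 := by omega
      rw [this, Nat.cast_one, one_mul]
    exact h5.trans (ENNReal.le_tsum (f := fun j : ℤ => (min j.natAbs 1 : ℕ) * Pool.Agent.W832.HR.a j) j)
  have h6 : U 1 ≤ 2 := by
    unfold U
    rw [Finset.sum_range_one]
    exact B_le le_rfl
  calc Pool.Agent.W832.HR.a j ≤ S 1 := h4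
    _ ≤ X 1 := h2
    _ ≤ 250 * U 1 := h3
    _ ≤ 250 * 2 := mul_le_mul_right h6 _
    _ = 500 := by norm_num

theorem Z_zero {D : Set V} {p q : V} (h : p ∉ D ∨ q ∉ D) : Z D p q = 0 := by
  unfold Z
  have : IsEmpty (Traj D p q) := by
    refine ⟨fun l => ?_⟩
    obtain ⟨l, h1, h2, -, -, h5⟩ := l
    rcases h with h | h
    · exact h (h5 p (List.mem_of_head? h1))
    · exact h (h5 q (List.mem_of_getLast? h2))
  exact tsum_empty

/-- levels -/
theorem lev_of {ε : ℝ} {p v : V} (hp : Bd ε p) (h : 0 ≤ ε * (lv (emb v) - lv (emb p))) :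
    (ε = 1 → p.1 - p.2 ≤ v.1 - v.2) ∧ (ε = -1 → v.1 - v.2 ≤ p.1 - p.2) := by
  rw [lv_emb, lv_emb] at h
  rcases hp with ⟨rfl, h1⟩ | ⟨rfl, h1⟩
  · rw [if_neg (Int.not_even_iff_odd.2 h1)] at h
    refine ⟨fun _ => ?_, fun h2 => by norm_num at h2⟩
    have h5 : (p.1 : ℝ) - p.2 ≤ v.1 - v.2 := by
      split_ifs at h <;> linarith
    exact_mod_cast h5
  · rw [if_pos h1] at h
    refine ⟨fun h2 => by norm_num at h2, fun _ => ?_⟩
    split_ifs at h with hv
    · have h5 : (v.1 : ℝ) - v.2 ≤ p.1 - p.2 := by linarith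
      exact_mod_cast h5
    · have h5 : (v.1 : ℝ) - v.2 ≤ p.1 - p.2 := by linarith
      exact_mod_cast h5

/-- the half turn -/
def tu (v : V) : V := (1 - v.1, -v.2)

theorem tu_tu (v : V) : tu (tu v) = v := by
  unfold tu
  apply Prod.ext
  · simp only; ring
  · simp only; ring

theorem tu_inj (p q : V) (h : tu p = tu q) : p = q := by
  rw [← tu_tu p, h, tu_tu]

theorem tu_nbr (p q : V) (h : Nbr p q) : Nbr (tu p) (tu q) := by
  rw [nbr_iff, adj_iff] at *
  unfold tu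
  simp only
  omega

/-- between two lines -/
theorem strip_le {D : Set V} {p q : V} (hp : Odd (p.1 + p.2)) (hq : Even (q.1 + q.2))
    (h1 : ∀ v ∈ D, p.1 - p.2 ≤ v.1 - v.2) (h2 : ∀ v ∈ D, v.1 - v.2 ≤ q.1 - q.2) :
    Z D p q ≤ 2 := by
  by_cases hD : p ∈ D ∧ q ∈ D
  swap
  · rw [Z_zero (by tauto)]
    exact zero_le
  have h3 := h1 q hD.2
  rw [Int.odd_iff] at hp
  rw [Int.even_iff] at hq
  obtain ⟨T, hT⟩ : ∃ T : ℕ, 2 * (T : ℤ) = (q.1 - q.2) - (p.1 - p.2) + 1 :=
    ⟨(((q.1 - q.2) - (p.1 - p.2) + 1) / 2).toNat, by omega⟩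
  have h4 : Z D p q ≤ Z (Strip T) (1, 0) (2 * (T : ℤ) + (q.2 - p.2), q.2 - p.2) := by
    refine Z_map (g := fun v => v + (1 - p.1, -p.2)) (fun _ _ e => add_right_cancel e)
      (fun _ _ h => nbr_trans ?_ h) ?_ ?_ ?_
    · rw [Int.even_iff]
      simp only
      omega
    · intro v hv
      have a1 := h1 v hv
      have a2 := h2 v hv
      unfold Strip
      rw [Set.mem_ofPred_eq]
      simp only [Prod.fst_add, Prod.snd_add]
      omega
    · apply Prod.ext
      · simp only [Prod.fst_add]; ring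
      · simp only [Prod.snd_add]; ring
    · apply Prod.ext
      · simp only [Prod.fst_add]; omega
      · simp only [Prod.snd_add]; ring
  refine h4.trans (le_trans ?_ (B_le (T := T) (by omega)))
  unfold B
  exact ENNReal.le_tsum (f := fun x : ℤ => Z (Strip T) (1, 0) (2 * (T : ℤ) + x, x)) (q.2 - p.2)

/-- two points on the same line -/
theorem same_le {D : Set V} {p q : V} (hp : Odd (p.1 + p.2)) (hpq : p ≠ q)
    (h1 : ∀ v ∈ D, p.1 - p.2 ≤ v.1 - v.2) (h2 : ∀ v ∈ D, q.1 - q.2 ≤ v.1 - v.2) :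
    Z D p q ≤ 500 := by
  by_cases hD : p ∈ D ∧ q ∈ D
  swap
  · rw [Z_zero (by tauto)]
    exact zero_le
  have h3 := h1 q hD.2
  have h4 := h2 p hD.1
  rw [Int.odd_iff] at hp
  have hne : q.2 - p.2 ≠ 0 := by
    intro h
    apply hpq
    apply Prod.ext <;> omega
  refine le_trans ?_ (a_le hne)
  unfold Pool.Agent.W832.HR.a
  refine Z_map (g := fun v => v + (1 - p.1, -p.2)) (fun _ _ e => add_right_cancel e)
    (fun _ _ h => nbr_trans ?_ h) ?_ ?_ ?_
  · rw [Int.even_iff]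
    simp only
    omega
  · intro v hv
    have a1 := h1 v hv
    unfold HP
    rw [Set.mem_ofPred_eq]
    simp only [Prod.fst_add, Prod.snd_add]
    omega
  · apply Prod.ext
    · simp only [Prod.fst_add]; ring
    · simp only [Prod.snd_add]; ring
  · apply Prod.ext
    · simp only [Prod.fst_add]; omega
    · simp only [Prod.snd_add]; ring

/-- **upper bound** -/
theorem upper {D : Set V} {ε ε' : ℝ} {p q : V} (hp : Bd ε p) (hq : Bd ε' q) (hpq : p ≠ q)
    (h1 : ∀ v ∈ D, 0 ≤ ε * (lv (emb v) - lv (emb p)))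
    (h2 : ∀ v ∈ D, 0 ≤ ε' * (lv (emb v) - lv (emb q))) : Z D p q ≤ 500 := by
  have g1 := fun v hv => lev_of hp (h1 v hv)
  have g2 := fun v hv => lev_of hq (h2 v hv)
  have two : (2 : ℝ≥0∞) ≤ 500 := by norm_num
  rcases hp with ⟨rfl, hp⟩ | ⟨rfl, hp⟩ <;> rcases hq with ⟨rfl, hq⟩ | ⟨rfl, hq⟩
  · exact same_le hp hpq (fun v hv => (g1 v hv).1 rfl) (fun v hv => (g2 v hv).1 rfl)
  · exact (strip_le hp hq (fun v hv => (g1 v hv).1 rfl) (fun v hv => (g2 v hv).2 rfl)).trans two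
  · rw [Z_rev]
    exact (strip_le hq hp (fun v hv => (g2 v hv).1 rfl) (fun v hv => (g1 v hv).2 rfl)).trans two
  · have h3 : Z D p q ≤ Z {v | tu v ∈ D} (tu p) (tu q) :=
      Z_map (g := tu) tu_inj tu_nbr (fun v hv => by
        change tu (tu v) ∈ D
        rw [tu_tu]
        exact hv) rfl rfl
    refine h3.trans (same_le ?_ (fun h => hpq (tu_inj _ _ h)) ?_ ?_)
    · rw [Int.even_iff] at hp
      rw [Int.odd_iff]
      unfold tu
      simp only
      omega
    · intro v hv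
      have := (g1 _ hv).2 rfl
      unfold tu at this ⊢
      simp only at this ⊢
      omega
    · intro v hv
      have := (g2 _ hv).2 rfl
      unfold tu at this ⊢
      simp only at this ⊢
      omega

/-- the probability that the walk stays in `T` -/
noncomputable def P (D : Set V) (p q : V) (T : Set V) : ℝ≥0∞ := Z (D ∩ T) p q / Z D p q

end Pool.Agent.Y981.Sup
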